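import Pool.Agent.Q230.LAS.Low2

/-!
# Determinization of 1-limited automata with few head reversals is doubly exponential

**Upper side.** The machine `V2.MM k` (`n = k + 1`) has five letters: two separators, an end of block
and the bits. In its first sweep it marks some separators; in `n` further sweeps to the right it checks
that each block has exactly one marked separator of each kind and that the bit strings of length `n`
behind them are equal (a counter modulo `n + 1` decreased in each cell finds the bit to be compared and
has the same value at all separators). So it accepts a sequence of blocks `(X, Y)`, `X, Y ⊆ {0,1}^n`,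
iff `X ∩ Y ≠ ∅` for all blocks. It has `8 n + 10` states.

**Lower side.** Let `M'` be a deterministic machine for this language. A word has a behaviour: the
action on states of the first traversal (which rewrites the word), and of the later traversals without
reversals in both directions, as functions of the state in which the first one has begun. The
behaviours form a finite monoid; let `V` be the subsemigroup of sequences of good blocks. There is an
idempotent `e ∈ V` such that every `e x e`, `x ∈ V`, has a power equal to `e`. If `x` is a bad block,
no power of `e x e` is `e`: otherwise take `y ∈ V` with behaviour `e` and a power `y^N` in which the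
head reverses in fewer than `N` cells; in some factor `y` it does not reverse, and this factor can be
replaced by `(y x y)^k` of the same behaviour without changing acceptance. Therefore `e x e`, for a
block `x = (X, Y)`, acts injectively on the ranges of `e` iff `X ∩ Y ≠ ∅`. A failure of injectivity
has a certificate with seven states, and the certificates of the pairs `(X, complement of X)` are
different, as they can be combined. So `2 ^ (2 ^ n) ≤ 3 (s + 1) ^ 7`.
-/

set_option autoImplicit false

open Pool.Agent.Q230.LAS

namespace Pool.Agent.Results.MP_0036f5_lc.FewReversals

theorem result : ∃ A G : Type, Nat.card A = 5 ∧ Nat.card G = 7 ∧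
    ∀ n : ℕ, 1 ≤ n → ∃ (Q : Type) (M : LA A Q G), Nat.card Q = 8 * n + 10 ∧
      (∀ q s, (M.δ q s).ncard ≤ 2) ∧ M.Sweeping ∧
      ∀ (Q' G' : Type) (M' : LA A Q' G'), Finite Q' → M'.Deterministic → M'.FewReversals →
        M'.lang = M.lang → 2 ^ (2 ^ n) ≤ 3 * (Nat.card Q' + 1) ^ 7 := by
  refine ⟨V2.Inp, V2.Wk, V2.card_inp, V2.card_wk, ?_⟩
  intro n hn
  obtain ⟨k, rfl⟩ : ∃ k, n = k + 1 := ⟨n - 1, by omega⟩
  refine ⟨V2.Qs k, V2.MM k, V2.card_qs k, V2.branch k, V2.sweeping k, ?_⟩
  intro Q' G' M' hQ hd hf hM
  haveI := hQ
  exact V2.lower hd hf hM

end Pool.Agent.Results.MP_0036f5_lc.FewReversals
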